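import Mathlib

/-!
# MP_ef9ba3_an, Q1: the Chebyshev center need not be a regularizer

In `H = ℝ²` take `P = diag(1, 0)`, `Λ(a, b) = (a/20 + b, a/10)`, `y = (1/20, 9/10)`, `ε = 1` and
`η² = 41/25`.  The consistency set has corners `(1, ±1)`, `(-1, 9/10)`, `(-1, -7/10)` and its
Chebyshev center is `(19/400, 0)`, which minimises `F_τ` for no `τ ∈ [0, 1]`.
-/

set_option autoImplicit false

namespace Pool.Agent.Results.MP_ef9ba3_an.CenterNotRegularizer

open Set

/-- The set of elements consistent with the model and with the data. -/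
def consistent {H : Type*} [NormedAddCommGroup H] [InnerProductSpace ℝ H] {m : ℕ}
    (P : H →ₗ[ℝ] H) (Λ : H →ₗ[ℝ] EuclideanSpace ℝ (Fin m)) (y : EuclideanSpace ℝ (Fin m))
    (ε η : ℝ) : Set H :=
  {f | ‖P f‖ ≤ ε ∧ ‖y - Λ f‖ ≤ η}

/-- `z` is a Chebyshev center of `S`: the center of a smallest closed ball containing `S`. -/
def IsChebyshevCenter {H : Type*} [NormedAddCommGroup H] (S : Set H) (z : H) : Prop :=
  ∃ r : ℝ, S ⊆ Metric.closedBall z r ∧ ∀ (w : H) (r' : ℝ), S ⊆ Metric.closedBall w r' → r ≤ r'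

/-- The regularization functional `F_τ`. -/
noncomputable def regF {H : Type*} [NormedAddCommGroup H] [InnerProductSpace ℝ H] {m : ℕ}
    (P : H →ₗ[ℝ] H) (Λ : H →ₗ[ℝ] EuclideanSpace ℝ (Fin m)) (y : EuclideanSpace ℝ (Fin m))
    (τ : ℝ) (f : H) : ℝ :=
  (1 - τ) * ‖P f‖ ^ 2 + τ * ‖y - Λ f‖ ^ 2

/-- The plane. -/
abbrev E := EuclideanSpace ℝ (Fin 2)

noncomputable def PP : E →ₗ[ℝ] E := Matrix.toEuclideanLin !![1, 0; 0, 0]
noncomputable def LL : E →ₗ[ℝ] E := Matrix.toEuclideanLin !![1/20, 1; 1/10, 0]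
noncomputable def yy : E := !₂[1/20, 9/10]

lemma normSq (v : E) : ‖v‖ ^ 2 = v 0 ^ 2 + v 1 ^ 2 := by
  rw [EuclideanSpace.norm_sq_eq, Fin.sum_univ_two]; simp

lemma PP0 (f : E) : PP f 0 = f 0 := by
  simp [PP, Matrix.toLpLin_apply, dotProduct, Fin.sum_univ_two]
lemma PP1 (f : E) : PP f 1 = 0 := by
  simp [PP, Matrix.toLpLin_apply, dotProduct, Fin.sum_univ_two]
lemma LL0 (f : E) : LL f 0 = f 0 / 20 + f 1 := by
  simp [LL, Matrix.toLpLin_apply, dotProduct, Fin.sum_univ_two]; ring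
lemma LL1 (f : E) : LL f 1 = f 0 / 10 := by
  simp [LL, Matrix.toLpLin_apply, dotProduct, Fin.sum_univ_two]; ring

lemma normP (f : E) : ‖PP f‖ ^ 2 = f 0 ^ 2 := by rw [normSq, PP0, PP1]; ring
lemma normL (f : E) : ‖yy - LL f‖ ^ 2 = (1/20 - (f 0 / 20 + f 1)) ^ 2 + (9/10 - f 0 / 10) ^ 2 := by
  rw [normSq]
  simp only [PiLp.sub_apply, LL0, LL1]
  simp [yy]

/-- Membership in the consistency set in coordinates. -/
lemma mem_iff (f : E) : f ∈ consistent PP LL yy 1 (√(41/25)) ↔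
    f 0 ^ 2 ≤ 1 ∧ (1/20 - (f 0 / 20 + f 1)) ^ 2 + (9/10 - f 0 / 10) ^ 2 ≤ 41/25 := by
  unfold consistent
  simp only [mem_ofPred_eq]
  rw [← normP, ← normL]
  constructor
  · rintro ⟨h1, h2⟩
    refine ⟨by nlinarith [norm_nonneg (PP f)], ?_⟩
    have := pow_le_pow_left₀ (norm_nonneg _) h2 2
    rwa [Real.sq_sqrt (by norm_num)] at this
  · rintro ⟨h1, h2⟩
    exact ⟨by nlinarith [norm_nonneg (PP f)], Real.le_sqrt_of_sq_le h2⟩

/-- The center. -/
noncomputable def zc : E := !₂[19/400, 0]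

/-- The radius. -/
noncomputable def rc : ℝ := √(1 + (381/400) ^ 2)

lemma distSq (f w : E) : dist f w ^ 2 = (f 0 - w 0) ^ 2 + (f 1 - w 1) ^ 2 := by
  rw [dist_eq_norm, normSq]; simp

/-- The consistency set lies in the disc. -/
lemma subset_ball : consistent PP LL yy 1 (√(41/25)) ⊆ Metric.closedBall zc rc := by
  intro f hf
  rw [mem_iff] at hf
  obtain ⟨h1, h2⟩ := hf
  rw [Metric.mem_closedBall]
  apply Real.le_sqrt_of_sq_le
  rw [distSq]
  set a := f 0
  set b := f 1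
  have hz0 : zc 0 = 19/400 := by simp [zc]
  have hz1 : zc 1 = 0 := by simp [zc]
  rw [hz0, hz1]
  have ha1 : -1 ≤ a := by nlinarith
  have ha2 : a ≤ 1 := by nlinarith
  -- `(b - T)(b - S) ≤ (1 - a²)/50`
  have hq : (b - (19/20 + a/20)) * (b + (17/20 + 3*a/20)) ≤ (1 - a^2) / 50 := by nlinarith
  have h0 : 0 ≤ 1 - a ^ 2 := by nlinarith
  have hU : b ≤ 19/20 + a/20 + (1 - a^2)/80 := by
    by_contra h
    push Not at h
    have e1 : 0 < b - (19/20 + a/20) := by nlinarith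
    have e2 : 8/5 < b + (17/20 + 3*a/20) := by nlinarith
    nlinarith
  have hL : -(17/20 + 3*a/20) - (1 - a^2)/80 ≤ b := by
    by_contra h
    push Not at h
    have e1 : b + (17/20 + 3*a/20) < 0 := by nlinarith
    have e2 : b - (19/20 + a/20) < -8/5 := by nlinarith
    nlinarith
  rcases le_total 0 b with hb | hb
  · have : b ^ 2 ≤ (19/20 + a/20 + (1 - a^2)/80) ^ 2 := pow_le_pow_left₀ hb hU 2
    nlinarith
  · have : b ^ 2 ≤ (17/20 + 3*a/20 + (1 - a^2)/80) ^ 2 := by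
      rw [← neg_sq b]; exact pow_le_pow_left₀ (by linarith) (by linarith) 2
    nlinarith

noncomputable def p1 : E := !₂[1, 1]
noncomputable def p2 : E := !₂[1, -1]
noncomputable def p3 : E := !₂[-1, 9/10]

lemma mem1 : p1 ∈ consistent PP LL yy 1 (√(41/25)) := by
  rw [mem_iff]; simp [p1]; norm_num
lemma mem2 : p2 ∈ consistent PP LL yy 1 (√(41/25)) := by
  rw [mem_iff]; simp [p2]; norm_num
lemma mem3 : p3 ∈ consistent PP LL yy 1 (√(41/25)) := by
  rw [mem_iff]; simp [p3]; norm_num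

/-- Any disc containing the three corners has a larger radius, quantitatively. -/
lemma lower {w : E} {r : ℝ} (h : consistent PP LL yy 1 (√(41/25)) ⊆ Metric.closedBall w r) :
    0 ≤ r ∧ rc ^ 2 + dist w zc ^ 2 ≤ r ^ 2 := by
  have h1 := h mem1
  have h2 := h mem2
  have h3 := h mem3
  rw [Metric.mem_closedBall] at h1 h2 h3
  have hr : 0 ≤ r := dist_nonneg.trans h1
  refine ⟨hr, ?_⟩
  have e1 := pow_le_pow_left₀ dist_nonneg h1 2
  have e2 := pow_le_pow_left₀ dist_nonneg h2 2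
  have e3 := pow_le_pow_left₀ dist_nonneg h3 2
  rw [distSq] at e1 e2 e3
  rw [rc, Real.sq_sqrt (by positivity), distSq]
  simp only [p1, p2, p3, zc] at *
  simp at *
  nlinarith

/-- **Main theorem** (negated form of Q1): for the explicit data above there is a unique Chebyshev
center and it minimises `F_τ` over `H` for no `τ ∈ [0, 1]`. -/
theorem result : ∃ (P : E →ₗ[ℝ] E) (Λ : E →ₗ[ℝ] E) (y : E) (ε η : ℝ),
    0 < ε ∧ 0 < η ∧ LinearMap.ker P ⊓ LinearMap.ker Λ = ⊥ ∧ (consistent P Λ y ε η).Nonempty ∧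
    ∃ z : E, IsChebyshevCenter (consistent P Λ y ε η) z ∧
      (∀ z' : E, IsChebyshevCenter (consistent P Λ y ε η) z' → z' = z) ∧
      ∀ τ ∈ Icc (0:ℝ) 1, ¬ IsMinOn (regF P Λ y τ) univ z := by
  refine ⟨PP, LL, yy, 1, √(41/25), one_pos, Real.sqrt_pos.2 (by norm_num), ?_, ⟨p1, mem1⟩, zc,
    ⟨rc, subset_ball, fun w r hw => ?_⟩, ?_, ?_⟩
  · rw [eq_bot_iff]
    intro f hf
    obtain ⟨h1, h2⟩ := hf
    have h1 : PP f = 0 := h1
    have h2 : LL f = 0 := h2
    have a1 := PP0 f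
    have a2 := LL0 f
    rw [h1] at a1
    rw [h2] at a2
    simp at a1 a2
    rw [Submodule.mem_bot]
    ext i
    fin_cases i
    · simpa using a1.symm
    · simp; linarith
  · obtain ⟨hr, h⟩ := lower hw
    have : rc ^ 2 ≤ r ^ 2 := by nlinarith [sq_nonneg (dist w zc)]
    exact le_of_sq_le_sq this hr
  · rintro z' ⟨r, h1, h2⟩
    have h3 := h2 zc rc subset_ball
    obtain ⟨hr, h4⟩ := lower h1
    have h5 : dist z' zc ^ 2 ≤ 0 := by nlinarith
    exact dist_le_zero.1 (by nlinarith [dist_nonneg (x := z') (y := zc)])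
  · intro τ hτ hmin
    rw [isMinOn_iff] at hmin
    unfold regF at hmin
    rcases hτ.1.eq_or_lt with h0 | h0
    · subst h0
      have := hmin 0 (mem_univ _)
      rw [normP, normP] at this
      simp [zc] at this
    · have := hmin !₂[19/400, 381/8000] (mem_univ _)
      rw [normP, normP, normL, normL] at this
      simp [zc] at this
      nlinarith

end Pool.Agent.Results.MP_ef9ba3_an.CenterNotRegularizer
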